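import Mathlib
import Pool.Agent.R475.RNP.Main

open MeasureTheory Set
open scoped ENNReal

namespace Pool.Agent.Results.MP_01d06f_an.AttainRNP

/-- `μ` is non-atomic: every measurable set of positive measure contains a measurable subset of
strictly smaller positive measure. -/
def NonAtomic {Ω : Type*} [MeasurableSpace Ω] (μ : Measure Ω) : Prop :=
  ∀ A : Set Ω, MeasurableSet A → 0 < μ A → ∃ B ⊆ A, MeasurableSet B ∧ 0 < μ B ∧ μ B < μ A

/-- The Radon-Nikodym property (measure spaces in `Type u`): every `ν`-continuous vector measure of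
bounded variation on a finite measure space has a Bochner integrable density. -/
def RNP.{u, v} (Y : Type v) [NormedAddCommGroup Y] [NormedSpace ℝ Y] : Prop :=
  ∀ (W : Type u) [MeasurableSpace W] (ν : Measure W) [IsFiniteMeasure ν]
    (m : VectorMeasure W Y), (∀ A, MeasurableSet A → ν A = 0 → m A = 0) →
    m.variation univ ≠ ∞ →
    ∃ h : W → Y, Integrable h ν ∧ ∀ A, MeasurableSet A → m A = ∫ w in A, h w ∂ν

universe u v w

/-- **Positive answer to Q1 of MP_01d06f_an.** Let `X` be a real or complex Banach space, `μ` a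
non-atomic probability measure and `p`, `q` conjugate exponents. If every `f ∈ L^p(μ, X)` attains
its norm on the closed unit ball of `L^q(μ, X^*)`, then `X^*` has the Radon-Nikodym property. -/
theorem result {𝕜 : Type*} [RCLike 𝕜] (X : Type u) [NormedAddCommGroup X] [NormedSpace 𝕜 X]
    [CompleteSpace X] {Ω : Type v} [MeasurableSpace Ω] (μ : Measure Ω) [IsProbabilityMeasure μ]
    (hμ : NonAtomic μ) (p q : ℝ≥0∞) [Fact (1 ≤ p)] [Fact (1 ≤ q)] [ENNReal.HolderConjugate p q]
    (hatt : ∀ f : Lp X p μ, ∃ g : Lp (StrongDual 𝕜 X) q μ, ‖g‖ ≤ 1 ∧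
      ∫ ω, g ω (f ω) ∂μ = ((‖f‖ : ℝ) : 𝕜)) :
    RNP.{w} (StrongDual 𝕜 X) := by
  letI : NormedSpace ℝ X := NormedSpace.restrictScalars ℝ 𝕜 X
  haveI : IsScalarTower ℝ 𝕜 X := IsScalarTower.of_algebraMap_smul fun r x => rfl
  haveI : ENNReal.HolderConjugate q p := ENNReal.HolderConjugate.symm
  exact Pool.Agent.R475.RNP.main hμ hatt

end Pool.Agent.Results.MP_01d06f_an.AttainRNP
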